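import Mathlib
import Pool.Agent.R232.ArensRing
import Pool.Agent.R232.ArensHilbert
import Pool.Agent.R232.ArensShift

/-!
# MP_5068ad_an: openness of multiplication does not pass to the bidual

Let `S` be the unilateral shift on `ℓ²`, `T = S*`, `P_m = 1 - S^m T^m`, and let `A` be the closure in
`B(ℓ²)` of the union of the corners `P_m B(ℓ²) P_m`. (So `A` is the algebra of compact operators.)

* `A` has uniformly open multiplication: if `x₀, y₀` lie in the corner of `P_m` and `w = ∑ w_j`, with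
  `w_j` in the corner of `P_{m_j}` and of norm `≤ 2 t² 4^{-j}`, then, with `r_j` large,
  `(x₀ + ∑ (2^j/t) w_j T^{r_j}) (y₀ + ∑ (t/2^j) S^{r_j} P_{m_j}) = x₀ y₀ + w`.
* `⟪u, π(F) v⟫ = F(a ↦ ⟪u, a v⟫)` defines a homomorphism `π` of `A**`, with either Arens product, onto
  `B(ℓ²)`.
* If `‖x - S‖ < 1` and `‖y - T‖ < 1` then `x y` has no left inverse, but `x y + c (1 - S T)` has one for
  every `c ≠ 0`. So `B(ℓ²)` and `A**` do not have weakly open multiplication.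
-/

open Filter Topology Set
open scoped InnerProductSpace

namespace Pool.Agent.Results.MP_5068ad_an.ArensNotOpen

universe u v

/-! ### Definitions -/

/-- The multiplication `m` on the normed space `X` is open. -/
def OpenMul {X : Type u} [NormedAddCommGroup X] (m : X → X → X) : Prop :=
  ∀ x y : X, ∀ ε > 0, ∃ δ > 0,
    Metric.ball (m x y) δ ⊆ Set.image2 m (Metric.ball x ε) (Metric.ball y ε)

/-- The multiplication `m` on the normed space `X` is uniformly open. -/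
def UniformlyOpenMul {X : Type u} [NormedAddCommGroup X] (m : X → X → X) : Prop :=
  ∀ ε > 0, ∃ δ > 0, ∀ x y : X,
    Metric.ball (m x y) δ ⊆ Set.image2 m (Metric.ball x ε) (Metric.ball y ε)

/-- The multiplication `m` on the normed space `X` is weakly open. -/
def WeaklyOpenMul {X : Type u} [NormedAddCommGroup X] (m : X → X → X) : Prop :=
  ∀ U : Set (X × X), IsOpen U → U.Nonempty → (interior ((fun q => m q.1 q.2) '' U)).Nonempty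

/-- The multiplication `m` has all three properties. -/
def HasAll {X : Type u} [NormedAddCommGroup X] (m : X → X → X) : Prop :=
  OpenMul m ∧ UniformlyOpenMul m ∧ WeaklyOpenMul m

/-- The multiplication `m` has none of the three properties. -/
def HasNone {X : Type u} [NormedAddCommGroup X] (m : X → X → X) : Prop :=
  ¬ OpenMul m ∧ ¬ UniformlyOpenMul m ∧ ¬ WeaklyOpenMul m

section arens

variable {𝕜 : Type u} [RCLike 𝕜] {A : Type v} [NonUnitalNormedRing A] [NormedSpace 𝕜 A]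
  [IsScalarTower 𝕜 A A] [SMulCommClass 𝕜 A A]

/-- `(f · a)(b) = f (a b)` for `f ∈ A*`, `a ∈ A`. -/
noncomputable def dotR (f : StrongDual 𝕜 A) (a : A) : StrongDual 𝕜 A :=
  f ∘L (ContinuousLinearMap.mul 𝕜 A a)

/-- `(a · f)(b) = f (b a)` for `f ∈ A*`, `a ∈ A`. -/
noncomputable def dotL (a : A) (f : StrongDual 𝕜 A) : StrongDual 𝕜 A :=
  f ∘L ((ContinuousLinearMap.mul 𝕜 A).flip a)

lemma dotR_norm (f : StrongDual 𝕜 A) (a : A) : ‖dotR f a‖ ≤ ‖f‖ * ‖a‖ := by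
  refine ContinuousLinearMap.opNorm_le_bound _ (by positivity) fun b => ?_
  calc ‖f (a * b)‖ ≤ ‖f‖ * ‖a * b‖ := f.le_opNorm _
    _ ≤ ‖f‖ * (‖a‖ * ‖b‖) := by gcongr; exact norm_mul_le _ _
    _ = ‖f‖ * ‖a‖ * ‖b‖ := by ring

lemma dotL_norm (f : StrongDual 𝕜 A) (a : A) : ‖dotL a f‖ ≤ ‖f‖ * ‖a‖ := by
  refine ContinuousLinearMap.opNorm_le_bound _ (by positivity) fun b => ?_
  calc ‖f (b * a)‖ ≤ ‖f‖ * ‖b * a‖ := f.le_opNorm _
    _ ≤ ‖f‖ * (‖b‖ * ‖a‖) := by gcongr; exact norm_mul_le _ _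
    _ = ‖f‖ * ‖a‖ * ‖b‖ := by ring

/-- `(G · f)(a) = G (f · a)` for `G ∈ A**`, `f ∈ A*`. -/
noncomputable def dotG (G : StrongDual 𝕜 (StrongDual 𝕜 A)) (f : StrongDual 𝕜 A) :
    StrongDual 𝕜 A :=
  LinearMap.mkContinuous
    { toFun := fun a => G (dotR f a)
      map_add' := fun a b => by
        rw [← map_add]; congr 1; ext c; simp [dotR]
      map_smul' := fun c a => by
        rw [RingHom.id_apply, ← map_smul]; congr 1; ext b; simp [dotR] }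
    (‖G‖ * ‖f‖) (fun a => by
      calc ‖G (dotR f a)‖ ≤ ‖G‖ * ‖dotR f a‖ := G.le_opNorm _
        _ ≤ ‖G‖ * (‖f‖ * ‖a‖) := by gcongr; exact dotR_norm f a
        _ = ‖G‖ * ‖f‖ * ‖a‖ := by ring)

/-- `(f · F)(a) = F (a · f)` for `F ∈ A**`, `f ∈ A*`. -/
noncomputable def dotF (f : StrongDual 𝕜 A) (F : StrongDual 𝕜 (StrongDual 𝕜 A)) :
    StrongDual 𝕜 A :=
  LinearMap.mkContinuous
    { toFun := fun a => F (dotL a f)
      map_add' := fun a b => by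
        rw [← map_add]; congr 1; ext c; simp [dotL]
      map_smul' := fun c a => by
        rw [RingHom.id_apply, ← map_smul]; congr 1; ext b; simp [dotL] }
    (‖F‖ * ‖f‖) (fun a => by
      calc ‖F (dotL a f)‖ ≤ ‖F‖ * ‖dotL a f‖ := F.le_opNorm _
        _ ≤ ‖F‖ * (‖f‖ * ‖a‖) := by gcongr; exact dotL_norm f a
        _ = ‖F‖ * ‖f‖ * ‖a‖ := by ring)

/-- The first Arens product, `(F □ G)(f) = F (G · f)`. -/
noncomputable def arens₁ (F G : StrongDual 𝕜 (StrongDual 𝕜 A)) : StrongDual 𝕜 (StrongDual 𝕜 A) :=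
  LinearMap.mkContinuous
    { toFun := fun f => F (dotG G f)
      map_add' := fun f g => by
        rw [← map_add]; congr 1; ext a
        change G (dotR (f + g) a) = G (dotR f a) + G (dotR g a)
        rw [← map_add]; rfl
      map_smul' := fun c f => by
        rw [RingHom.id_apply, ← map_smul]; congr 1; ext a
        change G (dotR (c • f) a) = c • G (dotR f a)
        rw [← map_smul]; rfl }
    (‖F‖ * ‖G‖) (fun f => by
      calc ‖F (dotG G f)‖ ≤ ‖F‖ * ‖dotG G f‖ := F.le_opNorm _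
        _ ≤ ‖F‖ * (‖G‖ * ‖f‖) := by
            gcongr; exact LinearMap.mkContinuous_norm_le _ (by positivity) _
        _ = ‖F‖ * ‖G‖ * ‖f‖ := by ring)

/-- The second Arens product, `(F ◇ G)(f) = G (f · F)`. -/
noncomputable def arens₂ (F G : StrongDual 𝕜 (StrongDual 𝕜 A)) : StrongDual 𝕜 (StrongDual 𝕜 A) :=
  LinearMap.mkContinuous
    { toFun := fun f => G (dotF f F)
      map_add' := fun f g => by
        rw [← map_add]; congr 1; ext a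
        change F (dotL a (f + g)) = F (dotL a f) + F (dotL a g)
        rw [← map_add]; rfl
      map_smul' := fun c f => by
        rw [RingHom.id_apply, ← map_smul]; congr 1; ext a
        change F (dotL a (c • f)) = c • F (dotL a f)
        rw [← map_smul]; rfl }
    (‖F‖ * ‖G‖) (fun f => by
      calc ‖G (dotF f F)‖ ≤ ‖G‖ * ‖dotF f F‖ := G.le_opNorm _
        _ ≤ ‖G‖ * (‖F‖ * ‖f‖) := by
            gcongr; exact LinearMap.mkContinuous_norm_le _ (by positivity) _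
        _ = ‖F‖ * ‖G‖ * ‖f‖ := by ring)

end arens

/-! ### Proof -/

lemma UniformlyOpenMul.openMul {X : Type u} [NormedAddCommGroup X] {m : X → X → X}
    (h : UniformlyOpenMul m) : OpenMul m := by
  intro x y ε hε
  obtain ⟨δ, hδ, h⟩ := h ε hε
  exact ⟨δ, hδ, h x y⟩

lemma OpenMul.weaklyOpenMul {X : Type u} [NormedAddCommGroup X] {m : X → X → X}
    (h : OpenMul m) : WeaklyOpenMul m := by
  rintro U hU ⟨⟨x, y⟩, hxy⟩
  obtain ⟨ε, hε, hball⟩ := Metric.isOpen_iff.1 hU _ hxy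
  obtain ⟨δ, hδ, h⟩ := h x y ε hε
  refine ⟨m x y, mem_interior.2 ⟨Metric.ball (m x y) δ, ?_, Metric.isOpen_ball,
    Metric.mem_ball_self hδ⟩⟩
  intro z hz
  obtain ⟨x', hx', y', hy', hz'⟩ := h hz
  refine ⟨(x', y'), hball ?_, hz'⟩
  rw [Metric.mem_ball, Prod.dist_eq]
  exact max_lt hx' hy'

section notopen

open Pool.Agent.R232.ArensRing Pool.Agent.R232.ArensHilbert

variable {𝕜 : Type u} [RCLike 𝕜] {H : Type v} [NormedAddCommGroup H] [InnerProductSpace 𝕜 H]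
  [CompleteSpace H] {D : Type v} [NormedAddCommGroup D] [NormedSpace 𝕜 D]

lemma not_weaklyOpen {Ω : H → H → D} (hΩ : VecFun (𝕜 := 𝕜) Ω)
    (m : StrongDual 𝕜 D → StrongDual 𝕜 D → StrongDual 𝕜 D)
    (hm : ∀ F G, π hΩ (m F G) = π hΩ F * π hΩ G) (hsurj : ∀ b, ∃ F, π hΩ F = b)
    {S T : H →L[𝕜] H} (hTS : T * S = 1) (hST : S * T ≠ 1) (hS : ‖S‖ ≤ 1) (hT : ‖T‖ ≤ 1) :
    ¬ WeaklyOpenMul m := by
  intro hw
  have hx : ∀ x : H →L[𝕜] H, ‖x - S‖ < 1 → IsUnit (T * x) := by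
    intro x hx
    apply isUnit_of_close
    calc ‖T * x - 1‖ = ‖T * (x - S)‖ := by rw [mul_sub, hTS]
      _ ≤ ‖T‖ * ‖x - S‖ := norm_mul_le _ _
      _ ≤ 1 * ‖x - S‖ := by gcongr
      _ < 1 := by rw [one_mul]; exact hx
  have hy : ∀ y : H →L[𝕜] H, ‖y - T‖ < 1 → IsUnit (y * S) := by
    intro y hy
    apply isUnit_of_close
    calc ‖y * S - 1‖ = ‖(y - T) * S‖ := by rw [sub_mul, hTS]
      _ ≤ ‖y - T‖ * ‖S‖ := norm_mul_le _ _
      _ ≤ ‖y - T‖ * 1 := by gcongr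
      _ < 1 := by rw [mul_one]; exact hy
  let U : Set (StrongDual 𝕜 D × StrongDual 𝕜 D) :=
    {q | ‖π hΩ q.1 - S‖ < 1 ∧ ‖π hΩ q.2 - T‖ < 1}
  have hU : IsOpen U := by
    have hc := π_continuous hΩ
    refine IsOpen.and (isOpen_lt ?_ continuous_const) (isOpen_lt ?_ continuous_const)
    · exact ((hc.comp continuous_fst).sub continuous_const).norm
    · exact ((hc.comp continuous_snd).sub continuous_const).norm
  have hUne : U.Nonempty := by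
    obtain ⟨F, hF⟩ := hsurj S
    obtain ⟨G, hG⟩ := hsurj T
    exact ⟨(F, G), by simp [U, hF, hG]⟩
  obtain ⟨z, hz⟩ := hw U hU hUne
  obtain ⟨⟨F₁, G₁⟩, ⟨hF₁, hG₁⟩, rfl⟩ := interior_subset hz
  obtain ⟨E, hE⟩ := hsurj (1 - S * T)
  -- a small perturbation stays in the image
  have hcont : Tendsto (fun c : ℝ => m F₁ G₁ + (c : 𝕜) • E) (𝓝[≠] 0) (𝓝 (m F₁ G₁)) := by
    have h0 : Continuous fun c : ℝ => (c : 𝕜) • E :=
      Continuous.smul (f := fun c : ℝ => (c : 𝕜)) RCLike.continuous_ofReal continuous_const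
    have h1 : Continuous fun c : ℝ => m F₁ G₁ + (c : 𝕜) • E := continuous_const.add h0
    have h2 := h1.tendsto 0
    have h3 : m F₁ G₁ + ((0 : ℝ) : 𝕜) • E = m F₁ G₁ := by
      rw [RCLike.ofReal_zero]
      exact (congrArg (m F₁ G₁ + ·) (zero_smul 𝕜 E)).trans (add_zero _)
    rw [h3] at h2
    exact h2.mono_left nhdsWithin_le_nhds
  have hev := hcont.eventually (mem_interior_iff_mem_nhds.1 hz)
  obtain ⟨c, ⟨⟨F₂, G₂⟩, ⟨_, hG₂⟩, hEq⟩, hc⟩ := (hev.and self_mem_nhdsWithin).exists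
  have hc0 : (c : 𝕜) ≠ 0 := by
    have : c ≠ 0 := hc
    exact_mod_cast this
  have h1 : π hΩ F₂ * π hΩ G₂ = π hΩ F₁ * π hΩ G₁ + (c : 𝕜) • (1 - S * T) := by
    rw [← hm, ← hm, ← hE, ← π_smul, ← π_add]
    congr 1
  have h2 := left_inv_perturb (d := algebraMap 𝕜 (H →L[𝕜] H) c)
    (dinv := algebraMap 𝕜 (H →L[𝕜] H) (c:𝕜)⁻¹) hTS (hx _ hF₁) (hy _ hG₁)
    (by rw [← map_mul, inv_mul_cancel₀ hc0, map_one])
    (fun a => (Algebra.commutes (c:𝕜) a).symm)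
  rw [← Algebra.smul_def, ← h1] at h2
  exact not_left_inv hTS hST (hy _ hG₂) h2

end notopen

section final

open Pool.Agent.R232.ArensRing Pool.Agent.R232.ArensHilbert Pool.Agent.R232.ArensShift

variable (𝕜 : Type u) [RCLike 𝕜]

/-- the algebra: the closure of the finite matrices in `B(ℓ²)` -/
noncomputable abbrev Alg : NonUnitalSubalgebra 𝕜 (H 𝕜 →L[𝕜] H 𝕜) :=
  (fin₀ 𝕜 (S 𝕜) (T 𝕜) (TS 𝕜)).topologicalClosure

/-- the normed space structure of the algebra -/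
noncomputable instance algNormedSpace : NormedSpace 𝕜 (Alg 𝕜) where
  norm_smul_le := fun c a => norm_smul_le c (a : H 𝕜 →L[𝕜] H 𝕜)

lemma alg_complete : CompleteSpace (Alg 𝕜) :=
  (NonUnitalSubalgebra.isClosed_topologicalClosure (fin₀ 𝕜 (S 𝕜) (T 𝕜) (TS 𝕜))).completeSpace_coe

lemma alg_unif : UniformlyOpenMul (fun x y : Alg 𝕜 => x * y) := by
  intro ε hε
  obtain ⟨δ, hδ, h⟩ := unif 𝕜 (TS 𝕜) (S_norm 𝕜) (T_norm 𝕜) ε hε
  refine ⟨δ, hδ, ?_⟩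
  intro x y z hz
  have hz' : ‖(z : H 𝕜 →L[𝕜] H 𝕜) - x * y‖ < δ := by
    rw [Metric.mem_ball, dist_eq_norm] at hz
    exact hz
  obtain ⟨x', hx'A, y', hy'A, hx', hy', hxy⟩ := h x x.2 y y.2 z z.2 hz'
  refine ⟨⟨x', hx'A⟩, ?_, ⟨y', hy'A⟩, ?_, Subtype.ext hxy⟩
  · rw [Metric.mem_ball, dist_eq_norm]; exact hx'
  · rw [Metric.mem_ball, dist_eq_norm]; exact hy'

/-- vector functionals on the algebra -/
noncomputable def vf (u v : H 𝕜) : StrongDual 𝕜 (Alg 𝕜) :=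
  LinearMap.mkContinuous
    { toFun := fun a => ⟪u, (a : H 𝕜 →L[𝕜] H 𝕜) v⟫_𝕜
      map_add' := fun a b => by
        change ⟪u, (a : H 𝕜 →L[𝕜] H 𝕜) v + (b : H 𝕜 →L[𝕜] H 𝕜) v⟫_𝕜 = _
        rw [inner_add_right]
      map_smul' := fun c a => by
        change ⟪u, c • (a : H 𝕜 →L[𝕜] H 𝕜) v⟫_𝕜 = _
        rw [inner_smul_right]; rfl }
    (‖u‖ * ‖v‖) (fun a => by
      calc ‖⟪u, (a : H 𝕜 →L[𝕜] H 𝕜) v⟫_𝕜‖ ≤ ‖u‖ * ‖(a : H 𝕜 →L[𝕜] H 𝕜) v‖ := norm_inner_le_norm _ _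
        _ ≤ ‖u‖ * (‖(a : H 𝕜 →L[𝕜] H 𝕜)‖ * ‖v‖) := by
            gcongr; exact ContinuousLinearMap.le_opNorm _ _
        _ = ‖u‖ * ‖v‖ * ‖a‖ := by
            rw [show ‖a‖ = ‖(a : H 𝕜 →L[𝕜] H 𝕜)‖ from rfl]; ring)

lemma vf_apply (u v : H 𝕜) (a : Alg 𝕜) : vf 𝕜 u v a = ⟪u, (a : H 𝕜 →L[𝕜] H 𝕜) v⟫_𝕜 := rfl

lemma vf_vecFun : VecFun (𝕜 := 𝕜) (vf 𝕜) where
  add_left := fun u u' v => by
    ext a
    change ⟪u + u', (a : H 𝕜 →L[𝕜] H 𝕜) v⟫_𝕜 = ⟪u, (a : H 𝕜 →L[𝕜] H 𝕜) v⟫_𝕜 + ⟪u', (a : H 𝕜 →L[𝕜] H 𝕜) v⟫_𝕜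
    rw [inner_add_left]
  smul_left := fun c u v => by
    ext a
    change ⟪c • u, (a : H 𝕜 →L[𝕜] H 𝕜) v⟫_𝕜 = (starRingEnd 𝕜 c) * ⟪u, (a : H 𝕜 →L[𝕜] H 𝕜) v⟫_𝕜
    rw [inner_smul_left]
  add_right := fun u v v' => by
    ext a
    change ⟪u, (a : H 𝕜 →L[𝕜] H 𝕜) (v + v')⟫_𝕜 = ⟪u, (a : H 𝕜 →L[𝕜] H 𝕜) v⟫_𝕜 + ⟪u, (a : H 𝕜 →L[𝕜] H 𝕜) v'⟫_𝕜
    rw [map_add, inner_add_right]
  smul_right := fun c u v => by
    ext a
    change ⟪u, (a : H 𝕜 →L[𝕜] H 𝕜) (c • v)⟫_𝕜 = c * ⟪u, (a : H 𝕜 →L[𝕜] H 𝕜) v⟫_𝕜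
    rw [map_smul, inner_smul_right]
  bound := fun u v => LinearMap.mkContinuous_norm_le _ (by positivity) _

lemma dotG_vf (G : StrongDual 𝕜 (StrongDual 𝕜 (Alg 𝕜))) (u v : H 𝕜) :
    dotG G (vf 𝕜 u v) = vf 𝕜 u (π (vf_vecFun 𝕜) G v) := by
  ext a
  change G (dotR (vf 𝕜 u v) a) = ⟪u, (a : H 𝕜 →L[𝕜] H 𝕜) (π (vf_vecFun 𝕜) G v)⟫_𝕜
  have h : dotR (vf 𝕜 u v) a = vf 𝕜 (ContinuousLinearMap.adjoint (a : H 𝕜 →L[𝕜] H 𝕜) u) v := by
    ext b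
    change ⟪u, (a : H 𝕜 →L[𝕜] H 𝕜) ((b : H 𝕜 →L[𝕜] H 𝕜) v)⟫_𝕜 =
      ⟪ContinuousLinearMap.adjoint (a : H 𝕜 →L[𝕜] H 𝕜) u, (b : H 𝕜 →L[𝕜] H 𝕜) v⟫_𝕜
    rw [ContinuousLinearMap.adjoint_inner_left]
  rw [h, ← π_spec (vf_vecFun 𝕜), ContinuousLinearMap.adjoint_inner_left]

lemma dotF_vf (F : StrongDual 𝕜 (StrongDual 𝕜 (Alg 𝕜))) (u v : H 𝕜) :
    dotF (vf 𝕜 u v) F = vf 𝕜 (ContinuousLinearMap.adjoint (π (vf_vecFun 𝕜) F) u) v := by
  ext a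
  change F (dotL a (vf 𝕜 u v)) =
    ⟪ContinuousLinearMap.adjoint (π (vf_vecFun 𝕜) F) u, (a : H 𝕜 →L[𝕜] H 𝕜) v⟫_𝕜
  have h : dotL a (vf 𝕜 u v) = vf 𝕜 u ((a : H 𝕜 →L[𝕜] H 𝕜) v) := by
    ext b
    rfl
  rw [h, ← π_spec (vf_vecFun 𝕜), ContinuousLinearMap.adjoint_inner_left]

lemma π_arens₁ (F G : StrongDual 𝕜 (StrongDual 𝕜 (Alg 𝕜))) :
    π (vf_vecFun 𝕜) (arens₁ F G) = π (vf_vecFun 𝕜) F * π (vf_vecFun 𝕜) G := by
  apply π_eq
  intro u v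
  change F (dotG G (vf 𝕜 u v)) = ⟪u, π (vf_vecFun 𝕜) F (π (vf_vecFun 𝕜) G v)⟫_𝕜
  rw [dotG_vf, π_spec]

lemma π_arens₂ (F G : StrongDual 𝕜 (StrongDual 𝕜 (Alg 𝕜))) :
    π (vf_vecFun 𝕜) (arens₂ F G) = π (vf_vecFun 𝕜) F * π (vf_vecFun 𝕜) G := by
  apply π_eq
  intro u v
  change G (dotF (vf 𝕜 u v) F) = ⟪u, π (vf_vecFun 𝕜) F (π (vf_vecFun 𝕜) G v)⟫_𝕜
  rw [dotF_vf, ← π_spec (vf_vecFun 𝕜), ContinuousLinearMap.adjoint_inner_left]

lemma alg_lift (b : H 𝕜 →L[𝕜] H 𝕜) :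
    ∃ F : StrongDual 𝕜 (StrongDual 𝕜 (Alg 𝕜)), π (vf_vecFun 𝕜) F = b := by
  refine exists_lift (vf_vecFun 𝕜) (S := S 𝕜) (T := T 𝕜) rfl (S_norm 𝕜) (T_lim 𝕜) b ?_
  intro n
  have hmem : P (S 𝕜) (T 𝕜) n * b * P (S 𝕜) (T 𝕜) n ∈ Alg 𝕜 := by
    apply NonUnitalSubalgebra.le_topologicalClosure
    refine ⟨n, ?_, ?_⟩
    · rw [← mul_assoc, ← mul_assoc, P_P (TS 𝕜) le_rfl]
    · rw [mul_assoc, P_P (TS 𝕜) le_rfl]
  refine ⟨NormedSpace.inclusionInDoubleDual 𝕜 (Alg 𝕜) ⟨_, hmem⟩, ?_, ?_⟩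
  · exact NormedSpace.double_dual_bound 𝕜 (Alg 𝕜) ⟨_, hmem⟩
  · intro u v
    rfl

/-- **MP_5068ad_an, Q1 (negative answer for each of the six choices).** Over `𝕜 = ℝ` and over `𝕜 = ℂ`
there is a Banach algebra `A` whose multiplication is open, uniformly open and weakly open, while the
multiplications of `(A**, □)` and of `(A**, ◇)` are not open, not uniformly open and not weakly
open. -/
theorem result : ∃ (A : Type u) (_ : NonUnitalNormedRing A) (_ : NormedSpace 𝕜 A)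
    (_ : IsScalarTower 𝕜 A A) (_ : SMulCommClass 𝕜 A A), CompleteSpace A ∧
      HasAll (fun x y : A => x * y) ∧
      HasNone (fun F G : StrongDual 𝕜 (StrongDual 𝕜 A) => arens₁ F G) ∧
      HasNone (fun F G : StrongDual 𝕜 (StrongDual 𝕜 A) => arens₂ F G) := by
  have h1 : ¬ WeaklyOpenMul (fun F G : StrongDual 𝕜 (StrongDual 𝕜 (Alg 𝕜)) => arens₁ F G) :=
    not_weaklyOpen (vf_vecFun 𝕜) _ (π_arens₁ 𝕜) (alg_lift 𝕜) (TS 𝕜) (ST 𝕜) (S_norm 𝕜) (T_norm 𝕜)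
  have h2 : ¬ WeaklyOpenMul (fun F G : StrongDual 𝕜 (StrongDual 𝕜 (Alg 𝕜)) => arens₂ F G) :=
    not_weaklyOpen (vf_vecFun 𝕜) _ (π_arens₂ 𝕜) (alg_lift 𝕜) (TS 𝕜) (ST 𝕜) (S_norm 𝕜) (T_norm 𝕜)
  exact ⟨Alg 𝕜, inferInstance, inferInstance, inferInstance, inferInstance, alg_complete 𝕜,
    ⟨(alg_unif 𝕜).openMul, alg_unif 𝕜, (alg_unif 𝕜).openMul.weaklyOpenMul⟩,
    ⟨fun h => h1 h.weaklyOpenMul, fun h => h1 h.openMul.weaklyOpenMul, h1⟩,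
    ⟨fun h => h2 h.weaklyOpenMul, fun h => h2 h.openMul.weaklyOpenMul, h2⟩⟩

end final

end Pool.Agent.Results.MP_5068ad_an.ArensNotOpen
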